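import Pool.Agent.H6.TP.Targets

/-! row NRG of the board top_modules (MP_c59857_nt): a frequency near a rational number -/

set_option autoImplicit false

open Finset Pool.Agent.H6.N4D Pool.Agent.H6.TP

namespace Pool.Agent.H97.TP

/-- one short window -/
theorem near_rat (lam : ℕ → ℝ) (Q q H u : ℕ) (θ η : ℝ) (hlam : ∀ m, |lam m| ≤ 1) (hq : 1 ≤ q)
    (hqQ : q ≤ Q) (hH : 1 ≤ H) (hθ : nd (q * θ) ≤ η) :
    cor lam H u θ ≤ SQ lam Q H u + 7 * η * H := by
  have hq0 : (0 : ℝ) < q := by exact_mod_cast hq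
  have hq1 : (1 : ℝ) ≤ q := by exact_mod_cast hq
  have hH0 : (0 : ℝ) < H := by exact_mod_cast hH
  have hη : 0 ≤ η := (nd_nonneg _).trans hθ
  obtain ⟨k, hk⟩ := exists_int (q * θ)
  set dl : ℝ := q * θ - k with hdl
  have hdl' : |dl| ≤ η := by
    rw [hk]
    exact hθ
  have hqz : (0 : ℤ) < q := by exact_mod_cast hq
  obtain ⟨a, ha⟩ : ∃ a : ℕ, (a : ℤ) = k % q := ⟨(k % q).toNat, Int.toNat_of_nonneg
    (Int.emod_nonneg _ hqz.ne')⟩
  have haq : a < q := by
    have h1 := Int.emod_lt_of_pos k hqz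
    rw [← ha] at h1
    exact_mod_cast h1
  set j : ℤ := k / q with hj
  have hkj : (k : ℝ) = q * j + a := by
    have h1 : k = q * j + a := by
      rw [ha, hj]
      exact (Int.mul_ediv_add_emod k q).symm
    rw [h1]
    push_cast
    ring
  have hθe : θ = j + a / q + dl / q := by
    have h1 : q * θ = q * j + a + dl := by
      rw [hdl, hkj]
      ring
    field_simp
    linarith
  set f : ℕ → ℂ := fun m => (lam m : ℂ) * ee (-((a : ℝ) / q * m)) with hf
  have hterm : ∀ m : ℕ, (lam m : ℂ) * ee (-(θ * m)) =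
      ee (-(dl / q * u)) * (f m * ee (-(dl / q * ((m : ℝ) - u)))) := by
    intro m
    have e1 : -(θ * (m : ℝ)) = ((-(j * (m : ℤ)) : ℤ) : ℝ) + (-((a : ℝ) / q * m) +
        (-(dl / q * u) + -(dl / q * ((m : ℝ) - u)))) := by
      rw [hθe]
      push_cast
      ring
    rw [e1, ee_add, ee_int, one_mul, ee_add, ee_add, hf]
    ring
  have hfle : ∀ m, ‖f m‖ ≤ 1 := by
    intro m
    rw [hf]
    simp only
    rw [norm_mul, norm_ee, mul_one, Complex.norm_real, Real.norm_eq_abs]
    exact hlam m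
  have h1 : cor lam H u θ = 1 / (H : ℝ) *
      ‖∑ m ∈ Ioc u (u + H), f m * ee (-(dl / q * ((m : ℝ) - u)))‖ := by
    unfold cor
    rw [sum_congr rfl (fun m _ => hterm m), ← mul_sum, norm_mul, norm_mul, norm_ee, one_mul,
      norm_div, norm_one, Complex.norm_natCast]
  have h2 : cor lam H u ((a : ℝ) / q) = 1 / (H : ℝ) * ‖∑ m ∈ Ioc u (u + H), f m‖ := by
    unfold cor
    rw [norm_mul, norm_div, norm_one, Complex.norm_natCast]
  have h3 : ‖∑ m ∈ Ioc u (u + H), f m * ee (-(dl / q * ((m : ℝ) - u)))‖ ≤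
      ‖∑ m ∈ Ioc u (u + H), f m‖ + H * (7 * η * H) := by
    have h4 : ∑ m ∈ Ioc u (u + H), f m * ee (-(dl / q * ((m : ℝ) - u))) =
        ∑ m ∈ Ioc u (u + H), f m +
        ∑ m ∈ Ioc u (u + H), f m * (ee (-(dl / q * ((m : ℝ) - u))) - 1) := by
      rw [← sum_add_distrib]
      exact sum_congr rfl fun m _ => by ring
    rw [h4]
    refine (norm_add_le _ _).trans ?_
    have h5 : ‖∑ m ∈ Ioc u (u + H), f m * (ee (-(dl / q * ((m : ℝ) - u))) - 1)‖ ≤
        H * (7 * η * H) := by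
      refine (norm_sum_le _ _).trans ?_
      calc ∑ m ∈ Ioc u (u + H), ‖f m * (ee (-(dl / q * ((m : ℝ) - u))) - 1)‖
          ≤ ∑ m ∈ Ioc u (u + H), 7 * η * H := by
            refine sum_le_sum fun m hm => ?_
            rw [mem_Ioc] at hm
            rw [norm_mul]
            have h6 := norm_ee_sub_one_le (-(dl / q * ((m : ℝ) - u)))
            have h7 : |(m : ℝ) - u| ≤ H := by
              have h8 : (u : ℝ) < m := by exact_mod_cast hm.1
              have h9 : (m : ℝ) ≤ u + H := by exact_mod_cast hm.2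
              rw [abs_of_pos (by linarith)]
              linarith
            have h10 : |-(dl / q * ((m : ℝ) - u))| ≤ η * H := by
              rw [abs_neg, abs_mul, abs_div, abs_of_pos hq0]
              have h11 : |dl| / q ≤ η := by
                rw [div_le_iff₀ hq0]
                nlinarith
              exact mul_le_mul h11 h7 (abs_nonneg _) hη
            have hpi : 2 * Real.pi ≤ 7 := by
              have := Real.pi_lt_d2
              linarith
            have hηH : 0 ≤ η * H := by positivity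
            calc ‖f m‖ * ‖ee (-(dl / q * ((m : ℝ) - u))) - 1‖
                ≤ 1 * (2 * Real.pi * |-(dl / q * ((m : ℝ) - u))|) :=
                  mul_le_mul (hfle m) h6 (norm_nonneg _) zero_le_one
              _ ≤ 1 * (7 * (η * H)) := by
                rw [one_mul, one_mul]
                exact mul_le_mul hpi h10 (abs_nonneg _) (by norm_num)
              _ = 7 * η * H := by ring
        _ = H * (7 * η * H) := by
            rw [sum_const, Nat.card_Ioc, Nat.add_sub_cancel_left, nsmul_eq_mul]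
    linarith
  have h6 : cor lam H u ((a : ℝ) / q) ≤ SQ lam Q H u := by
    unfold SQ
    have h7 : cor lam H u ((a : ℝ) / q) ≤ ∑ a ∈ range q, cor lam H u ((a : ℝ) / q) :=
      single_le_sum (f := fun a : ℕ => cor lam H u ((a : ℝ) / q))
        (fun i _ => cor_nonneg _ _ _ _) (mem_range.2 haq)
    refine h7.trans ?_
    exact single_le_sum (f := fun q : ℕ => ∑ a ∈ range q, cor lam H u ((a : ℝ) / q))
      (fun i _ => sum_nonneg fun _ _ => cor_nonneg _ _ _ _) (mem_Icc.2 ⟨hq, hqQ⟩)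
  rw [h1]
  rw [h2] at h6
  calc 1 / (H : ℝ) * ‖∑ m ∈ Ioc u (u + H), f m * ee (-(dl / q * ((m : ℝ) - u)))‖
      ≤ 1 / (H : ℝ) * (‖∑ m ∈ Ioc u (u + H), f m‖ + H * (7 * η * H)) := by
        apply mul_le_mul_of_nonneg_left h3
        positivity
    _ = 1 / (H : ℝ) * ‖∑ m ∈ Ioc u (u + H), f m‖ + 7 * η * H := by
        field_simp
    _ ≤ _ := by linarith

theorem pf_NRG (hAVV : T_AVV) : T_NRG := by
  intro lam Q q H Y n θ η hlam hq hqQ hH hHY hθ
  have hY0 : (0 : ℝ) < Y := by exact_mod_cast (lt_of_lt_of_le hH hHY)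
  set g : ℕ → ℂ := fun m => (lam m : ℂ) * ee (-(θ * m)) with hg
  have hg1 : ∀ m, ‖g m‖ ≤ 1 := by
    intro m
    rw [hg]
    simp only
    rw [norm_mul, norm_ee, mul_one, Complex.norm_real, Real.norm_eq_abs]
    exact hlam m
  have h1 := hAVV g H Y n hg1 hH hHY
  have h2 : ∀ u ∈ Ico n (n + Y), ‖(1 / (H : ℂ)) * ∑ m ∈ Ioc u (u + H), g m‖ ≤
      SQ lam Q H u + 7 * η * H := fun u _ => near_rat lam Q q H u θ η hlam hq hqQ hH hθ
  have h3 := sum_le_sum h2
  rw [sum_add_distrib, sum_const, Nat.card_Ico, Nat.add_sub_cancel_left, nsmul_eq_mul] at h3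
  have h4 : cor lam Y n θ = ‖(1 / (Y : ℂ)) * ∑ m ∈ Ioc n (n + Y), g m‖ := rfl
  rw [h4]
  refine h1.trans ?_
  have h5 : (∑ u ∈ Ico n (n + Y), ‖(1 / (H : ℂ)) * ∑ m ∈ Ioc u (u + H), g m‖) / Y ≤
      (∑ u ∈ Ico n (n + Y), SQ lam Q H u + Y * (7 * η * H)) / Y :=
    div_le_div_of_nonneg_right h3 hY0.le
  have h6 : (∑ u ∈ Ico n (n + Y), SQ lam Q H u + Y * (7 * η * H)) / Y =
      (∑ u ∈ Ico n (n + Y), SQ lam Q H u) / Y + 7 * η * H := by
    field_simp
  rw [h6] at h5
  linarith

end Pool.Agent.H97.TP
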