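import Pool.Agent.H6.TP.Targets

/-! row RES of the board top_modules (MP_c59857_nt): residue classes -/

set_option autoImplicit false

open Finset Pool.Agent.H6.N4D Pool.Agent.H6.TP

namespace Pool.Agent.H97.TP

theorem sum_blocks (f : ℕ → ℂ) (q : ℕ) : ∀ h : ℕ,
    ∑ j ∈ range (q * h), f j = ∑ y ∈ range h, ∑ b ∈ range q, f (q * y + b) := by
  intro h
  induction h with
  | zero => simp
  | succ h ih => rw [Nat.mul_succ, sum_range_add, ih, sum_range_succ]

theorem shift_bound (f : ℕ → ℂ) (hf : ∀ m, ‖f m‖ ≤ 1) (n' d L : ℕ) :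
    ‖∑ m ∈ Ico (n' + d) (n' + d + L), f m‖ ≤ ‖∑ m ∈ Ico n' (n' + L), f m‖ + 2 * d := by
  have h1 := sum_Ico_consecutive f (show n' ≤ n' + d by omega) (show n' + d ≤ n' + d + L by omega)
  have h2 := sum_Ico_consecutive f (show n' ≤ n' + L by omega)
    (show n' + L ≤ n' + d + L by omega)
  have h3 : ∑ m ∈ Ico (n' + d) (n' + d + L), f m = ∑ m ∈ Ico n' (n' + L), f m +
      ∑ m ∈ Ico (n' + L) (n' + d + L), f m - ∑ m ∈ Ico n' (n' + d), f m := by
    rw [h2, ← h1]
    ring
  have h4 : ∀ s t : ℕ, ‖∑ m ∈ Ico s t, f m‖ ≤ ((t - s : ℕ) : ℝ) := by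
    intro s t
    refine (norm_sum_le _ _).trans ?_
    calc ∑ m ∈ Ico s t, ‖f m‖ ≤ ∑ m ∈ Ico s t, (1 : ℝ) := sum_le_sum fun m _ => hf m
      _ = _ := by simp
  have h5 := h4 (n' + L) (n' + d + L)
  have h6 := h4 n' (n' + d)
  have e5 : n' + d + L - (n' + L) = d := by omega
  have e6 : n' + d - n' = d := by omega
  rw [e5] at h5
  rw [e6] at h6
  rw [h3]
  refine (norm_sub_le _ _).trans ?_
  have h7 := norm_add_le (∑ m ∈ Ico n' (n' + L), f m) (∑ m ∈ Ico (n' + L) (n' + d + L), f m)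
  linarith

theorem pf_RES : T_RES := by
  intro lam q h n a hlam hq hh
  have hq0 : (0 : ℝ) < q := by exact_mod_cast hq
  have hh0 : (0 : ℝ) < h := by exact_mod_cast hh
  set f : ℕ → ℂ := fun m => (lam m : ℂ) * ee (-((a : ℝ) / q * m)) with hf
  have hf1 : ∀ m, ‖f m‖ ≤ 1 := by
    intro m
    rw [hf]
    simp only
    rw [norm_mul, norm_ee, mul_one, Complex.norm_real, Real.norm_eq_abs]
    exact hlam m
  set n' := q * (n / q) with hn'
  have hn1 : n' ≤ n := Nat.mul_div_le n q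
  have hn2 : n < n' + q := by
    have := Nat.lt_mul_div_succ n (show 0 < q by omega)
    rw [hn']
    linarith
  obtain ⟨d, hd⟩ : ∃ d, n + 1 = n' + d := ⟨n + 1 - n', by omega⟩
  have hdq : d ≤ q := by omega
  have hI : Ioc n (n + q * h) = Ico (n' + d) (n' + d + q * h) := by
    ext m
    rw [mem_Ioc, mem_Ico]
    constructor
    · rintro ⟨h1, h2⟩
      constructor <;> omega
    · rintro ⟨h1, h2⟩
      constructor <;> omega
  have hmain : ‖∑ m ∈ Ico n' (n' + q * h), f m‖ ≤
      ∑ b ∈ range q, |∑ y ∈ range h, lam (q * (n / q + y) + b)| := by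
    have h1 : ∑ m ∈ Ico n' (n' + q * h), f m = ∑ j ∈ range (q * h), f (n' + j) := by
      rw [sum_Ico_eq_sum_range]
      congr 1
      rw [Nat.add_sub_cancel_left]
    rw [h1, sum_blocks (fun j => f (n' + j)) q h, sum_comm]
    refine (norm_sum_le _ _).trans (sum_le_sum fun b _ => ?_)
    have h2 : ∀ y ∈ range h, f (n' + (q * y + b)) =
        ee (-((a : ℝ) * b / q)) * (lam (q * (n / q + y) + b) : ℂ) := by
      intro y _
      have e1 : n' + (q * y + b) = q * (n / q + y) + b := by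
        rw [hn']
        ring
      rw [e1, hf]
      simp only
      have e2 : -((a : ℝ) / q * ((q * (n / q + y) + b : ℕ) : ℝ)) =
          ((-((a : ℤ) * ((n / q + y : ℕ) : ℤ)) : ℤ) : ℝ) + -((a : ℝ) * b / q) := by
        generalize n / q = t
        push_cast
        field_simp
        ring
      rw [e2, ee_add, ee_int, one_mul, mul_comm]
    rw [sum_congr rfl h2, ← mul_sum, norm_mul, norm_ee, one_mul, ← Complex.ofReal_sum,
      Complex.norm_real, Real.norm_eq_abs]
  have hb := shift_bound f hf1 n' d (q * h)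
  rw [← hI] at hb
  have hdq' : (d : ℝ) ≤ q := by exact_mod_cast hdq
  have hfin : ‖∑ m ∈ Ioc n (n + q * h), f m‖ ≤
      ∑ b ∈ range q, |∑ y ∈ range h, lam (q * (n / q + y) + b)| + 2 * q := by
    linarith
  unfold cor
  rw [norm_mul, norm_div, norm_one, Complex.norm_natCast]
  push_cast
  calc 1 / ((q : ℝ) * h) * ‖∑ m ∈ Ioc n (n + q * h), (lam m : ℂ) * ee (-((a : ℝ) / q * m))‖
      ≤ 1 / ((q : ℝ) * h) *
        (∑ b ∈ range q, |∑ y ∈ range h, lam (q * (n / q + y) + b)| + 2 * q) := by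
        apply mul_le_mul_of_nonneg_left hfin
        positivity
    _ = ∑ b ∈ range q, |∑ y ∈ range h, lam (q * (n / q + y) + b)| / (q * h) + 2 / h := by
        rw [← sum_div]
        field_simp

end Pool.Agent.H97.TP
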